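import Pool.Agent.H94.LP5.M24
import Pool.Agent.H94.LP5.V7.Num.Solve

/-!
# V7: the numbers of one step (NUM-B2)
-/

set_option autoImplicit false

namespace Pool.Agent.V7

open Finset Pool.Agent.V7.ST

namespace NumStep

theorem solve' (M c l : ℕ) (hl : l + 1 ≤ M) (hM : 2 ≤ M) (hc : 1 ≤ c) : ∃ K : ℝ, 0 < K ∧
    ∃ n₀ : ℕ, ∀ n : ℕ, n₀ ≤ n → ∀ ε : ℝ, 0 ≤ ε → ε ≤ 1 → ∀ (R : Kd → ℝ) (I₀ : Finset ℕ),
    I₀ ⊆ range l → RCls M c l n ε R I₀ → |vR M c l n R| ≤ ε * (n : ℝ) ^ (2 * M - 1 - l) →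
    |totR M l R I₀ - nom M c l I₀ * (n : ℝ) ^ (M + I₀.card - l)| ≤
      (K * ε + K / n) * (n : ℝ) ^ (M + I₀.card - l) := by
  obtain ⟨K, hK, n₀, H⟩ := solve M c l (2 * ((2 * M - 1).choose M : ℝ) / c * (c : ℝ) ^ l + 1)
    hl hM hc
  refine ⟨K, hK, n₀, fun n hn ε hε0 hε1 R I₀ hI₀ h hv => ?_⟩
  refine H n hn ε hε0 R I₀ hI₀ (fun I hI hI' => h.big I hI hI') (fun i hi I hI => ?_)
    h.zer (fun μ h1 h2 I hI => ?_) hv
  · rw [abs_of_nonneg (h.swp0 i hi I hI)]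
    refine (h.swp i hi I hI).trans ?_
    have h1 := nom_le (M := M) (c := c) (j := l) (by omega) hc I
    gcongr
  · rw [abs_of_nonneg (h.sml0 μ h1 h2 I hI)]
    exact h.sml μ h1 h2 I hI

/-- the choice of the number of the specialised points of the free type -/
theorem choose_t {M c j n m : ℕ} {N : Kd → ℕ} (hM : 1 ≤ M) (hb : 0 < bb c (M - 1) j n) (x : ℕ) :
    ∃ t : ℤ, (x : ℝ) * bb c (M - 1) j n ≤ vR M c j n (PP M j n m N (t : ℝ)) ∧
      vR M c j n (PP M j n m N (t : ℝ)) < ((x : ℝ) + 1) * bb c (M - 1) j n := by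
  obtain ⟨b, hbd⟩ : ∃ b : ℕ, b = bb c (M - 1) j n := ⟨_, rfl⟩
  obtain ⟨V, hV⟩ : ∃ V : ℤ, V = (bb c (2 * M - 1) j n : ℤ) -
    ∑ τ ∈ (kds M j).erase (.ord M (range j)), (Fl M j n m N τ : ℤ) * (wt M c n τ : ℤ) := ⟨_, rfl⟩
  have h0 : Kd.ord M (range j) ∈ kds M j := mem_kds.2 ⟨hM, le_rfl, Subset.refl _⟩
  have hw : wt M c n (.ord M (range j)) = b := by
    show bb c (M - 1) (range j).card n = b
    rw [card_range, hbd]
  have hv : ∀ t : ℤ, vR M c j n (PP M j n m N (t : ℝ)) = ((V - t * b : ℤ) : ℝ) := by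
    intro t
    unfold vR
    rw [← add_sum_erase _ _ h0, PP_top, hw, hV]
    have h1 : ∑ τ ∈ (kds M j).erase (.ord M (range j)),
        PP M j n m N (t : ℝ) τ * (wt M c n τ : ℝ) =
        ∑ τ ∈ (kds M j).erase (.ord M (range j)), (Fl M j n m N τ : ℝ) * (wt M c n τ : ℝ) := by
      refine sum_congr rfl fun τ hτ => ?_
      unfold PP
      rw [if_neg (ne_of_mem_erase hτ)]
    rw [h1]
    push_cast
    ring
  have hb' : (0 : ℤ) < b := by
    rw [hbd]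
    exact_mod_cast hb
  refine ⟨(V - x * b) / b, ?_, ?_⟩
  · rw [hv, ← hbd]
    have h1 := Int.emod_nonneg (V - x * b) hb'.ne'
    have h2 := Int.emod_add_mul_ediv (V - x * b) b
    have h3 : (x : ℤ) * b ≤ V - (V - x * b) / b * b := by
      have h4 : (V - x * b) / b * b = b * ((V - x * b) / b) := mul_comm _ _
      rw [h4]
      linarith only [h1, h2]
    exact_mod_cast h3
  · rw [hv, ← hbd]
    have h1 := Int.emod_lt_of_pos (V - x * b) hb'
    have h2 := Int.emod_add_mul_ediv (V - x * b) b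
    have h3 : V - (V - x * b) / b * b < ((x : ℤ) + 1) * b := by
      have h4 : (V - x * b) / b * b = b * ((V - x * b) / b) := mul_comm _ _
      rw [h4]
      linarith only [h1, h2]
    exact_mod_cast h3

end NumStep

open NumStep

theorem num_step (M c j : ℕ) (hj : j + 2 ≤ M) (hc : 2 * (2 * M - 1).choose M * M < c) (e' : ℝ)
    (he' : 0 < e') : ∃ e₀ : ℝ, 0 < e₀ ∧ ∀ e : ℝ, 0 < e → e ≤ e₀ → ∀ X : ℕ, ∃ n₀ : ℕ, ∀ n : ℕ,
    n₀ ≤ n → ∀ N : Kd → ℕ, Cls0 M c j (n + c) (e + 1 / ((n + c : ℕ) : ℝ)) N →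
    |vN M c j (n + c) N| ≤ X * (bb c (M - 1) j (n + c) : ℤ) → ∀ x : ℕ, x ≤ X →
    ∃ N' : Kd → ℕ, (∀ τ, N' τ ≤ N τ) ∧ Cls0 M c j n (e + 1 / (n : ℝ)) N' ∧
      (x : ℤ) * bb c (M - 1) j n ≤ vN M c j n N' ∧
      vN M c j n N' < ((x : ℤ) + 1) * bb c (M - 1) j n ∧
      ∀ y : ℕ, y ≤ 2 * bb c (M - 1) j n →
        y + N' (.ord M ∅) ≤ N (.ord M ∅) ∧ Cls M c (j + 1) (n + c) e' (resN M j N N' y) := by
  have hM2 : 2 ≤ M := by omega
  have hM1 : 1 ≤ M := by omega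
  have hC1 : 1 ≤ (2 * M - 1).choose M := Nat.choose_pos (by omega)
  have hcM : 2 * M < c := by
    calc 2 * M = 2 * 1 * M := by ring
      _ ≤ 2 * (2 * M - 1).choose M * M := by gcongr
      _ < c := hc
  have hc1 : 1 ≤ c := by omega
  have hc2 : 2 * (j + 1) ≤ c := by omega
  obtain ⟨K₁, hK₁, n₁, H₁⟩ := solve' M c j (by omega) hM2 hc1
  obtain ⟨K₂, hK₂, n₂, H₂⟩ := solve' M c (j + 1) (by omega) hM2 hc1
  obtain ⟨K₃, hK₃, H₃⟩ := bb_asym c (M - 1) j (by omega)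
  obtain ⟨C, hC⟩ : ∃ C : ℝ, C = ((2 * M - 1).choose M : ℝ) := ⟨_, rfl⟩
  have hC1' : 1 ≤ C := by rw [hC]; exact_mod_cast hC1
  have hc0' : (0 : ℝ) < c := by exact_mod_cast hc1
  obtain ⟨κ, hκ⟩ : ∃ κ : ℝ, κ = 2 * K₁ + 2 * K₃ := ⟨_, rfl⟩
  have hκ0 : 0 ≤ κ := by rw [hκ]; positivity
  obtain ⟨L, hL⟩ : ∃ L : ℝ, L = KK M c j κ := ⟨_, rfl⟩
  obtain ⟨-, -, -, -, k5, k6⟩ := KK_parts (M := M) (c := c) (j := j) hκ0
  rw [← hL] at k5 k6
  obtain ⟨K₄, hK₄⟩ : ∃ K₄ : ℝ, K₄ = K₂ * (L + 1) + L := ⟨_, rfl⟩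
  have hK₄0 : 0 < K₄ := by
    rw [hK₄]
    have : 0 < L := by linarith only [hK₁, hK₃, hκ, k5]
    positivity
  have hLK : L ≤ K₄ := by
    rw [hK₄]
    have : 0 ≤ K₂ * (L + 1) := by
      have : 0 < L := by linarith only [hK₁, hK₃, hκ, k5]
      positivity
    linarith only [this]
  obtain ⟨ν₀, hν₀⟩ : ∃ ν : ℝ, ν = nom M c j (range j) := ⟨_, rfl⟩
  obtain ⟨ν₁, hν₁⟩ : ∃ ν : ℝ, ν = nom M c (j + 1) (range j) := ⟨_, rfl⟩
  obtain ⟨ν₂, hν₂⟩ : ∃ ν : ℝ, ν = nom M c (j + 1) ∅ := ⟨_, rfl⟩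
  have hν₀0 : 0 < ν₀ := by rw [hν₀]; exact nom_pos hM1 hc1 _
  have hν₁0 : 0 < ν₁ := by rw [hν₁]; exact nom_pos hM1 hc1 _
  have hν₂0 : 0 < ν₂ := by rw [hν₂]; exact nom_pos hM1 hc1 _
  obtain ⟨g, hg⟩ : ∃ g : ℝ, g = 1 - ((j : ℝ) + 1) * (2 * C / c) := ⟨_, rfl⟩
  have hg0 : 0 < g := by
    have h1 : 2 * (2 * M - 1).choose M * (j + 1) < c :=
      lt_of_le_of_lt (Nat.mul_le_mul_left _ (by omega)) hc
    have h2 : 2 * C * ((j : ℝ) + 1) < c := by
      rw [hC]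
      exact_mod_cast h1
    have h3 : ((j : ℝ) + 1) * (2 * C / c) < 1 := by
      rw [mul_div_assoc', div_lt_one hc0']
      linarith only [h2]
    rw [hg]
    linarith only [h3]
  obtain ⟨G, hG⟩ : ∃ G : ℝ, G = 1 + L * ((j : ℝ) + 2) + K₄ + κ := ⟨_, rfl⟩
  have hL0 : 0 < L := by linarith only [hK₁, hK₃, hκ, k5]
  have hj0 : (0 : ℝ) ≤ j := Nat.cast_nonneg _
  have hG0 : 0 < G := by rw [hG]; positivity
  obtain ⟨δ₀, hδ₀, d1, d2, d3, d4, d5⟩ := exists_small hG0 he' hν₀0 hν₁0 (mul_pos hg0 hν₂0)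
  refine ⟨δ₀ / 2, by positivity, fun e he hee X => ?_⟩
  obtain ⟨Kb, hKb⟩ : ∃ Kb : ℝ, Kb = (c : ℝ) ^ j / ((M - 1 - j).factorial : ℝ) + K₃ := ⟨_, rfl⟩
  have hKb0 : 0 < Kb := by rw [hKb]; positivity
  obtain ⟨A, hA⟩ : ∃ A : ℝ, A = 1 + (2 * X + 3) * Kb := ⟨_, rfl⟩
  have hA1 : 1 ≤ A := by
    rw [hA]
    have : 0 ≤ (2 * (X : ℝ) + 3) * Kb := by positivity
    linarith only [this]
  obtain ⟨n₃, hn₃⟩ := exists_nat_ge (2 * A / δ₀)
  refine ⟨n₁ + n₂ + n₃ + (j + 1) * c + c + 1, fun n hn N hN hX x hx => ?_⟩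
  obtain ⟨m, hm⟩ : ∃ m : ℕ, m = n + c := ⟨_, rfl⟩
  rw [← hm] at hN hX
  rw [← hm]
  have hjc : (j + 1) * c = j * c + c := by ring
  have hn1 : 1 ≤ n := by omega
  have hn0' : (0 : ℝ) < n := by exact_mod_cast hn1
  have hcn : c ≤ n := by omega
  have hjn : j * c + 1 ≤ n := by omega
  have hnn₁ : n₁ ≤ n := by omega
  have hmn₂ : n₂ ≤ m := by omega
  have hnn₃ : (n₃ : ℝ) ≤ n := Nat.cast_le.2 (by omega)
  -- δ
  obtain ⟨δ, hδ⟩ : ∃ δ : ℝ, δ = e + A / n := ⟨_, rfl⟩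
  have hAn : A / n ≤ δ₀ / 2 := by
    rw [div_le_iff₀ hn0']
    have h1 : 2 * A ≤ n * δ₀ := by
      have := hn₃.trans hnn₃
      rwa [div_le_iff₀ hδ₀] at this
    linarith only [h1]
  have hδδ₀ : δ ≤ δ₀ := by rw [hδ]; linarith only [hee, hAn]
  have hδ0 : 0 < δ := by rw [hδ]; positivity
  have hGδ : G * δ ≤ G * δ₀ := mul_le_mul_of_nonneg_left hδδ₀ hG0.le
  have hLj : 0 ≤ L * ((j : ℝ) + 2) := by positivity
  have hLj' : L ≤ L * ((j : ℝ) + 2) := le_mul_of_one_le_right hL0.le (by linarith only)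
  have hGL : L * δ ≤ G * δ := by
    refine mul_le_mul_of_nonneg_right ?_ hδ0.le
    rw [hG]
    linarith only [hK₁, hK₃, hκ, k5, hLK, hLj']
  have hGK : K₄ * δ ≤ G * δ := by
    refine mul_le_mul_of_nonneg_right ?_ hδ0.le
    rw [hG]
    linarith only [hK₁, hK₃, hκ, k5, hLj']
  have hGκ : κ * δ ≤ G * δ := by
    refine mul_le_mul_of_nonneg_right ?_ hδ0.le
    rw [hG]
    linarith only [hK₁, hK₃, hκ, k5, hLK, hLj']
  have hδ1 : δ ≤ 1 := by
    have h1 : 1 ≤ G := by rw [hG]; linarith only [hK₁, hK₃, hκ, k5, hLK, hLj']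
    have h2 : 1 * δ ≤ G * δ := mul_le_mul_of_nonneg_right h1 hδ0.le
    linarith only [d1, hGδ, h2]
  have h1n : e + 1 / (n : ℝ) ≤ δ := by
    rw [hδ]
    gcongr
  have S : Set' c n m δ := ⟨hc1, hm, hcn, by linarith only [he, h1n], hδ1⟩
  have h1m : e + 1 / (m : ℝ) ≤ δ := by
    have := one_div_le_one_div_of_le hn0' S.nm
    linarith only [h1n, this]
  have hm0 := S.m0
  have hNδ := cls0_mono hN h1m
  -- the numbers b
  have hjcn : j * c ≤ n := by omega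
  have hjcm : j * c ≤ m := by omega
  have hbn := (abs_le.1 (H₃ n hn1 hjcn)).2
  have hbm := (abs_le.1 (H₃ m (by omega) hjcm)).2
  obtain ⟨b, hb⟩ : ∃ b : ℕ, b = bb c (M - 1) j n := ⟨_, rfl⟩
  obtain ⟨b', hb'⟩ : ∃ b : ℕ, b = bb c (M - 1) j m := ⟨_, rfl⟩
  have hb0 : 0 < bb c (M - 1) j n := bb_pos hc1 (M - 1) (by omega) hjn
  rw [← hb] at hbn hb0 ⊢
  rw [← hb'] at hbm hX
  obtain ⟨w, hw⟩ : ∃ w : ℝ, w = (m : ℝ) ^ (M - 1 - j) := ⟨_, rfl⟩
  have hw0 : 0 < w := by rw [hw]; exact pow_pos hm0 _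
  have hnw : (n : ℝ) ^ (M - 1 - j) ≤ w := by
    rw [hw]
    exact pow_le_pow_left₀ hn0'.le S.nm _
  have hbw : (b : ℝ) ≤ Kb * w := by
    have h1 : K₃ / n ≤ K₃ := div_le_self hK₃.le (by exact_mod_cast hn1)
    have h2 : (b : ℝ) ≤ Kb * (n : ℝ) ^ (M - 1 - j) := by
      have h3 : K₃ / n * (n : ℝ) ^ (M - 1 - j) ≤ K₃ * (n : ℝ) ^ (M - 1 - j) := by gcongr
      rw [hKb, add_mul]
      linarith only [hbn, h3]
    exact h2.trans (mul_le_mul_of_nonneg_left hnw hKb0.le)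
  have hbw' : (b' : ℝ) ≤ Kb * w := by
    have h1 : K₃ / m ≤ K₃ := div_le_self hK₃.le S.m1
    rw [← hw] at hbm
    have h3 : K₃ / m * w ≤ K₃ * w := by gcongr
    rw [hKb, add_mul]
    linarith only [hbm, h3]
  -- the number t
  obtain ⟨t, ht1, ht2⟩ := choose_t (m := m) (N := N) hM1 (by rw [← hb]; exact hb0) x
  rw [← hb] at ht1 ht2
  have hP := P_cls (t := (t : ℝ)) S hj hc2 hN
  have hPδ := hP.mono h1n
  have hxX : (x : ℝ) ≤ X := Nat.cast_le.2 hx
  have hb0' : (0 : ℝ) ≤ b := Nat.cast_nonneg _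
  have hvP : |vR M c j n (PP M j n m N (t : ℝ))| ≤ (X + 1) * b := by
    rw [abs_le]
    have h1 : 0 ≤ (x : ℝ) * b := by positivity
    have h2 : ((x : ℝ) + 1) * b ≤ (X + 1) * b := by gcongr
    constructor <;> linarith only [ht1, ht2, h1, h2]
  have hAδn : A ≤ δ * n := by
    have h1 : A / n ≤ δ := by rw [hδ]; linarith only [he]
    rwa [div_le_iff₀ hn0'] at h1
  have hAX : (X + 1) * Kb ≤ A := by
    rw [hA]
    have : 0 ≤ ((X : ℝ) + 2) * Kb := by positivity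
    linarith only [hKb0, hA, hA1]
  have hvP2 : |vR M c j n (PP M j n m N (t : ℝ))| ≤ δ * (n : ℝ) ^ (2 * M - 1 - j) := by
    refine hvP.trans ?_
    have h1 : (b : ℝ) ≤ Kb * (n : ℝ) ^ (M - 1 - j) := by
      have h1 : K₃ / n ≤ K₃ := div_le_self hK₃.le (by exact_mod_cast hn1)
      have h3 : K₃ / n * (n : ℝ) ^ (M - 1 - j) ≤ K₃ * (n : ℝ) ^ (M - 1 - j) := by gcongr
      rw [hKb, add_mul]
      linarith only [hbn, h3]
    have h2 : (n : ℝ) ^ (M - 1 - j) * n ≤ (n : ℝ) ^ (2 * M - 1 - j) := by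
      rw [← pow_succ]
      exact pow_le_pow_right₀ S.n1 (by omega)
    calc (X + 1) * (b : ℝ) ≤ (X + 1) * (Kb * (n : ℝ) ^ (M - 1 - j)) := by gcongr
      _ = ((X + 1) * Kb) * (n : ℝ) ^ (M - 1 - j) := by ring
      _ ≤ (δ * n) * (n : ℝ) ^ (M - 1 - j) :=
        mul_le_mul_of_nonneg_right (hAX.trans hAδn) (by positivity)
      _ = δ * ((n : ℝ) ^ (M - 1 - j) * n) := by ring
      _ ≤ δ * (n : ℝ) ^ (2 * M - 1 - j) := by gcongr
  have ht : |(t : ℝ) - ν₀ * (n : ℝ) ^ M| ≤ κ * δ * (n : ℝ) ^ M := by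
    have h1 := H₁ n hnn₁ δ hδ0.le hδ1 _ (range j) (Subset.refl _) hPδ hvP2
    have h2 : M + (range j).card - j = M := by rw [card_range]; omega
    rw [totR_PP_top hN.ok, h2, ← hν₀] at h1
    refine h1.trans ?_
    have h3 : K₁ / n ≤ K₁ * δ := by
      have := mul_le_mul_of_nonneg_left S.hδ hK₁.le
      calc K₁ / n = K₁ * (1 / n) := by ring
        _ ≤ K₁ * δ := this
    have h4 : K₁ * δ + K₁ / n ≤ κ * δ := by
      have h5 : 0 ≤ K₃ * δ := by positivity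
      rw [hκ, add_mul]
      linarith only [h3, h5]
    gcongr
  have htm := top_shift S hM1 hκ0 (by rw [← hν₀]; exact ht)
  rw [← hν₀, ← hL] at htm
  -- t is nonnegative
  have ht0 : 0 ≤ t := by
    have h1 := (abs_le.1 ht).1
    have h2 : κ * δ * (n : ℝ) ^ M ≤ ν₀ * (n : ℝ) ^ M := by
      gcongr
      exact hGκ.trans (hGδ.trans d3)
    have h3 : (0 : ℝ) ≤ t := by linarith only [h1, h2]
    exact_mod_cast h3
  -- the bound of y
  have hM1j : M - (j + 1) = M - 1 - j := by omega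
  have hyb : ∀ y : ℕ, y ≤ 2 * b → (y : ℝ) ≤ (2 * C / c * ν₂ + κ * δ) * w := by
    intro y hy
    have h1 : (y : ℝ) ≤ 2 * b := by exact_mod_cast hy
    have h2 : 2 * C / c * ν₂ = 2 * ((c : ℝ) ^ j / ((M - 1 - j).factorial : ℝ)) := by
      rw [hν₂]
      unfold nom
      rw [card_empty, ← hC, add_zero, hM1j, Nat.sub_zero, pow_succ]
      have h3 : ((M - 1 - j).factorial : ℝ) ≠ 0 := Nat.cast_ne_zero.2 (Nat.factorial_ne_zero _)
      have h4 : C ≠ 0 := by positivity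
      field_simp
    have h3 : K₃ / n ≤ K₃ * δ := by
      have := mul_le_mul_of_nonneg_left S.hδ hK₃.le
      calc K₃ / n = K₃ * (1 / n) := by ring
        _ ≤ K₃ * δ := this
    have h4 : (b : ℝ) ≤ ((c : ℝ) ^ j / ((M - 1 - j).factorial : ℝ) + K₃ * δ) *
        (n : ℝ) ^ (M - 1 - j) := by
      have h5 : K₃ / n * (n : ℝ) ^ (M - 1 - j) ≤ K₃ * δ * (n : ℝ) ^ (M - 1 - j) := by gcongr
      rw [add_mul]
      linarith only [hbn, h5]
    have h6 : (b : ℝ) ≤ ((c : ℝ) ^ j / ((M - 1 - j).factorial : ℝ) + K₃ * δ) * w := by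
      refine h4.trans ?_
      gcongr
    rw [h2]
    have h7 : 2 * K₃ * δ ≤ κ * δ := by
      have h8 : 0 ≤ K₁ * δ := by positivity
      rw [hκ, add_mul]
      linarith only [h8]
    calc (y : ℝ) ≤ 2 * b := h1
      _ ≤ 2 * (((c : ℝ) ^ j / ((M - 1 - j).factorial : ℝ) + K₃ * δ) * w) := by gcongr
      _ = (2 * ((c : ℝ) ^ j / ((M - 1 - j).factorial : ℝ)) + 2 * K₃ * δ) * w := by ring
      _ ≤ (2 * ((c : ℝ) ^ j / ((M - 1 - j).factorial : ℝ)) + κ * δ) * w := by gcongr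
  -- the residual
  have hwpos : (m : ℝ) ^ (M - (j + 1)) = w := by rw [hM1j, hw]
  have hRy : ∀ y : ℕ, y ≤ 2 * b → RCls M c (j + 1) m (L * δ)
      (resR M j (fun τ => (N τ : ℝ)) (PP M j n m N t) y) (range j) ∧
      |totR M (j + 1) (resR M j (fun τ => (N τ : ℝ)) (PP M j n m N t) y) (range j) -
        ν₁ * (m : ℝ) ^ (M - 1)| ≤ K₄ * δ * (m : ℝ) ^ (M - 1) := by
    intro y hy
    have h1 := R_cls (t := (t : ℝ)) (y := (y : ℝ)) S hj hκ0 hNδ (by rw [← hν₀]; exact ht)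
      (Nat.cast_nonneg _) (by rw [← hC, ← hν₂, hwpos]; exact hyb y hy)
    rw [← hL] at h1
    refine ⟨h1, ?_⟩
    have h2 := vR_res (j := j) (N := fun τ => (N τ : ℝ)) (P := PP M j n m N t) (y := (y : ℝ))
      hM1 hc1 hm (by omega)
    have h3 : |vR M c (j + 1) m (resR M j (fun τ => (N τ : ℝ)) (PP M j n m N t) y)| ≤
        L * δ * (m : ℝ) ^ (2 * M - 1 - (j + 1)) := by
      rw [h2, vR_cast]
      have h4 : |((vN M c j m N : ℤ) : ℝ)| ≤ X * b' := by exact_mod_cast hX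
      have h5 : |(y : ℝ)| ≤ 2 * b := by
        rw [abs_of_nonneg (Nat.cast_nonneg _)]
        exact_mod_cast hy
      have h6 : |((vN M c j m N : ℤ) : ℝ) - vR M c j n (PP M j n m N t) + y| ≤
          X * b' + (X + 1) * b + 2 * b := by
        refine (abs_add_le _ _).trans (add_le_add ((abs_sub _ _).trans (add_le_add h4 hvP)) h5)
      refine h6.trans ?_
      have h7 : (X : ℝ) * b' + (X + 1) * b + 2 * b ≤ (2 * X + 3) * Kb * w := by
        have h8 : (X : ℝ) * b' ≤ X * (Kb * w) := by gcongr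
        have h9 : ((X : ℝ) + 1) * b ≤ (X + 1) * (Kb * w) := by gcongr
        have h10 : (2 * (X : ℝ) + 3) * Kb * w = X * (Kb * w) + (X + 1) * (Kb * w) + 2 * (Kb * w) := by
          ring
        rw [h10]
        linarith only [hbw, h8, h9]
      refine h7.trans ?_
      have h11 : (2 * (X : ℝ) + 3) * Kb ≤ A := by rw [hA]; linarith only
      have h12 : w * m ≤ (m : ℝ) ^ (2 * M - 1 - (j + 1)) := by
        rw [hw, ← pow_succ]
        exact pow_le_pow_right₀ S.m1 (by omega)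
      have h13 : δ ≤ L * δ := le_mul_of_one_le_left hδ0.le k6
      calc (2 * (X : ℝ) + 3) * Kb * w ≤ A * w := by gcongr
        _ ≤ (δ * n) * w := by gcongr
        _ ≤ (δ * m) * w := by
          have := S.nm
          gcongr
        _ = δ * (w * m) := by ring
        _ ≤ δ * (m : ℝ) ^ (2 * M - 1 - (j + 1)) := by gcongr
        _ ≤ L * δ * (m : ℝ) ^ (2 * M - 1 - (j + 1)) := by gcongr
    have h14 := H₂ m hmn₂ (L * δ) (by positivity) (hGL.trans (hGδ.trans d1)) _ (range j)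
      (range_mono (Nat.le_succ j)) h1 h3
    have h15 : M + (range j).card - (j + 1) = M - 1 := by rw [card_range]; omega
    rw [h15, ← hν₁] at h14
    refine h14.trans ?_
    have h16 : K₂ / m ≤ K₂ * δ := by
      have := mul_le_mul_of_nonneg_left S.mδ hK₂.le
      calc K₂ / m = K₂ * (1 / m) := by ring
        _ ≤ K₂ * δ := this
    have h17 : K₂ * (L * δ) + K₂ / m ≤ K₄ * δ := by
      have h18 : K₄ * δ = K₂ * (L * δ) + K₂ * δ + L * δ := by rw [hK₄]; ring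
      have h19 : 0 ≤ L * δ := by positivity
      rw [h18]
      linarith only [h16, h19]
    gcongr
  -- the totals on the level j + 1
  have hbig : ∀ y : ℕ, y ≤ 2 * b → ∀ I, I ⊆ range (j + 1) →
      |totR M (j + 1) (resR M j (fun τ => (N τ : ℝ)) (PP M j n m N t) y) I -
        nom M c (j + 1) I * (m : ℝ) ^ (M + I.card - (j + 1))| ≤
        K₄ * δ * (m : ℝ) ^ (M + I.card - (j + 1)) := by
    intro y hy I hI
    by_cases hIj : I = range j
    · subst hIj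
      have h15 : M + (range j).card - (j + 1) = M - 1 := by rw [card_range]; omega
      rw [h15, ← hν₁]
      exact (hRy y hy).2
    · refine ((hRy y hy).1.big I hI hIj).trans ?_
      gcongr
  -- t is at most N τ₀
  have htN : t ≤ (N (.ord M (range j)) : ℤ) := by
    have h1 := (hRy 0 (Nat.zero_le _)).2
    rw [totR_off (off (Subset.refl _)), totR_PP_top hN.ok] at h1
    have h2 : totR M j (fun τ => (N τ : ℝ)) (range j) = N (.ord M (range j)) := by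
      unfold totR
      rw [sum_eq_zero, add_zero]
      intro i hi
      have h3 : N (.sw i (range j)) = 0 := by
        by_contra h4
        exact sw_range_notMem (mem_range.1 hi) (hN.ok _ h4)
      show ((N (.sw i (range j)) : ℕ) : ℝ) = 0
      rw [h3, Nat.cast_zero]
    rw [h2] at h1
    have h3 := (abs_le.1 h1).1
    have h4 : K₄ * δ * (m : ℝ) ^ (M - 1) ≤ ν₁ * (m : ℝ) ^ (M - 1) := by
      gcongr
      exact hGK.trans (hGδ.trans d4)
    have h5 : (t : ℝ) ≤ N (.ord M (range j)) := by linarith only [h3, h4]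
    exact_mod_cast h5
  -- N'
  obtain ⟨N', hN'⟩ : ∃ N' : Kd → ℕ, ∀ τ, (N' τ : ℝ) = PP M j n m N t τ := by
    refine ⟨fun τ => if τ = .ord M (range j) then t.toNat else Fl M j n m N τ, fun τ => ?_⟩
    have h2 : ((t.toNat : ℕ) : ℝ) = (t : ℝ) := by
      have h3 : ((t.toNat : ℕ) : ℤ) = t := Int.toNat_of_nonneg ht0
      have h4 : (((t.toNat : ℕ) : ℤ) : ℝ) = (t : ℝ) := by rw [h3]
      rwa [Int.cast_natCast] at h4
    show ((if τ = .ord M (range j) then t.toNat else Fl M j n m N τ : ℕ) : ℝ) =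
      if τ = .ord M (range j) then (t : ℝ) else (Fl M j n m N τ : ℝ)
    by_cases h1 : τ = .ord M (range j)
    · rw [if_pos h1, if_pos h1, h2]
    · rw [if_neg h1, if_neg h1]
  have hN'f : (fun τ => (N' τ : ℝ)) = PP M j n m N t := funext hN'
  have hle : ∀ τ, N' τ ≤ N τ := by
    intro τ
    have h1 : (N' τ : ℝ) ≤ N τ := by
      rw [hN']
      unfold PP
      split_ifs with h1
      · rw [h1]
        exact_mod_cast htN
      · exact_mod_cast Fl_le_self (M := M) (j := j) (N := N) S τ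
    exact_mod_cast h1
  have hok' : ∀ τ, N' τ ≠ 0 → τ ∈ kds M j := fun τ h => hN.ok τ fun h0 => h (by
    have := hle τ
    omega)
  refine ⟨N', hle, ⟨hok', fun I hI hI' => ?_, fun i hi I hI => ?_, fun μ h1 h2 I hI => ?_⟩,
    ?_, ?_, fun y hy => ?_⟩
  · rw [← totR_cast, hN'f]
    exact hP.big I hI hI'
  · rw [hN']
    exact hP.swp i hi I hI
  · rw [hN']
    exact hP.sml μ h1 h2 I hI
  · rw [← hN'f, vR_cast] at ht1
    exact_mod_cast ht1
  · rw [← hN'f, vR_cast] at ht2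
    exact_mod_cast ht2
  · obtain ⟨hR1, hR2⟩ := hRy y hy
    have hbig' := hbig y hy
    have hyy : y + N' (.ord M ∅) ≤ N (.ord M ∅) := by
      have h1 := hbig' ∅ (empty_subset _)
      rw [card_empty, add_zero, hwpos, ← hν₂, totR_off (notMem_empty j), ← hN'f] at h1
      have h2 : totR M j (fun τ => (N τ : ℝ)) ∅ - totR M j (fun τ => (N' τ : ℝ)) ∅ =
          N (.ord M ∅) - N' (.ord M ∅) + ∑ i ∈ range j, ((N (.sw i ∅) : ℝ) - N' (.sw i ∅)) := by
        unfold totR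
        rw [sum_sub_distrib]
        ring
      rw [h2] at h1
      have h3 : ∑ i ∈ range j, ((N (.sw i ∅) : ℝ) - N' (.sw i ∅)) ≤
          ∑ i ∈ range j, (2 * C / c * ν₂ + L * δ) * w := by
        refine sum_le_sum fun i hi => ?_
        have h4 := hR1.swp i (by have := mem_range.1 hi; omega) ∅ (empty_subset _)
        rw [resR_sw_off (mem_range.1 hi) (notMem_empty j), card_empty, add_zero, hwpos, ← hν₂,
          ← hC, ← hN'] at h4
        exact h4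
      rw [sum_const, card_range, nsmul_eq_mul] at h3
      have h5 := (abs_le.1 h1).1
      have h6 := hyb y hy
      have h7 : (K₄ + j * L + κ) * δ ≤ G * δ := by
        refine mul_le_mul_of_nonneg_right ?_ hδ0.le
        have h8 : L * ((j : ℝ) + 2) = j * L + 2 * L := by ring
        rw [hG, h8]
        linarith only [hK₁, hK₃, hκ, k5]
      have h8 : (K₄ + j * L + κ) * δ ≤ g * ν₂ := h7.trans (hGδ.trans d5)
      have h9 : (K₄ + j * L + κ) * δ * w ≤ g * ν₂ * w := mul_le_mul_of_nonneg_right h8 hw0.le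
      have h10 : g * ν₂ * w = ν₂ * w - j * (2 * C / c * ν₂ * w) - 2 * C / c * ν₂ * w := by
        rw [hg]
        ring
      have h11 : (K₄ + j * L + κ) * δ * w = K₄ * δ * w + j * (L * δ * w) + κ * δ * w := by ring
      rw [h10, h11] at h9
      have h12 : (j : ℝ) * ((2 * C / c * ν₂ + L * δ) * w) =
          j * (2 * C / c * ν₂ * w) + j * (L * δ * w) := by ring
      rw [h12] at h3
      have h13 : (2 * C / c * ν₂ + κ * δ) * w = 2 * C / c * ν₂ * w + κ * δ * w := by ring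
      rw [h13] at h6
      have h14 : (y : ℝ) + N' (.ord M ∅) ≤ N (.ord M ∅) := by linarith only [h3, h5, h6, h9]
      exact_mod_cast h14
    refine ⟨hyy, ?_⟩
    have hcast := resN_cast (j := j) hle hyy
    rw [hN'f] at hcast
    have hLe : L * δ ≤ e' := hGL.trans (hGδ.trans d2)
    have hKe : K₄ * δ ≤ e' := hGK.trans (hGδ.trans d2)
    have hcf : (fun τ => (resN M j N N' y τ : ℝ)) =
        resR M j (fun τ => (N τ : ℝ)) (PP M j n m N t) y := funext hcast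
    refine ⟨⟨resN_ok hN.ok hok', fun I hI _ => ?_, fun i hi I hI => ?_, fun μ h1 h2 I hI => ?_⟩, ?_⟩
    · rw [← totR_cast, hcf]
      refine (hbig' I hI).trans ?_
      gcongr
    · rw [hcast]
      refine (hR1.swp i hi I hI).trans ?_
      gcongr
    · rw [hcast]
      refine (hR1.sml μ h1 h2 I hI).trans ?_
      gcongr
    · rw [hcast, range_add_one, resR_ord_on (off (Subset.refl _)), PP_top,
        nom_on (Subset.refl _), ← hν₀]
      refine htm.trans ?_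
      gcongr

end Pool.Agent.V7
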